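import Pool.Agent.W295.PR.Stm

set_option autoImplicit false

open Topology

namespace Pool.Agent.W417.PR.EL

open Pool.Agent.W295.PR

/-- eigenfunction lemma -/
theorem main : S_EL := by
  intro G _ _ _ N χ hmul hcont hconj hΓ hg0
  classical
  have h1 : χ 1 = 1 := by
    have := hmul 1 N.G0.one_mem 1 N.G0.one_mem
    rw [one_mul] at this
    have h2 : χ 1 * χ 1 = χ 1 * 1 := by rw [mul_one]; exact this.symm
    exact mul_left_cancel h2
  choose U hU Gm hGm hUG using N.trans
  let ψ : G → Circle := fun g => χ (U g)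
  have hψ : ∀ u ∈ N.G0, ∀ γ ∈ N.Γ, ψ (u * γ) = χ u := by
    intro u hu γ hγ
    have e := hUG (u * γ)
    set u' := U (u * γ) with hu'
    set γ' := Gm (u * γ) with hγ'
    have hu'm : u' ∈ N.G0 := hU _
    have hγ'm : γ' ∈ N.Γ := hGm _
    have e2 : u'⁻¹ * u = γ' * γ⁻¹ := by
      have : u = u' * γ' * γ⁻¹ := by rw [← e]; group
      rw [this]; group
    have m1 : u'⁻¹ * u ∈ N.G0 := N.G0.mul_mem (N.G0.inv_mem hu'm) hu
    have m2 : u'⁻¹ * u ∈ N.Γ := by rw [e2]; exact N.Γ.mul_mem hγ'm (N.Γ.inv_mem hγ)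
    have e3 : χ u = χ u' * χ (u'⁻¹ * u) := by
      rw [← hmul u' hu'm _ m1]
      congr 1; group
    rw [hΓ _ m2 m1, mul_one] at e3
    exact e3.symm
  have hψl : ∀ u ∈ N.G0, ∀ x, ψ (u * x) = χ u * ψ x := by
    intro u hu x
    have e : u * x = (u * U x) * Gm x := by
      conv_lhs => rw [hUG x]
      rw [mul_assoc]
    rw [e, hψ _ (N.G0.mul_mem hu (hU x)) _ (hGm x), hmul u hu _ (hU x)]
  have hψr : ∀ x, ∀ γ ∈ N.Γ, ψ (x * γ) = ψ x := by
    intro x γ hγ
    have e : x * γ = (U x) * (Gm x * γ) := by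
      conv_lhs => rw [hUG x]
      rw [mul_assoc]
    rw [e, hψ _ (hU x) _ (N.Γ.mul_mem (hGm x) hγ)]
  have hψa : ∀ x, ψ (N.a * x) = ψ x := by
    intro x
    have hn := N.normal.conj_mem (U x) (hU x) N.a
    have e : N.a * x = (N.a * U x * N.a⁻¹ * N.g0) * ((N.g0⁻¹ * N.a) * Gm x) := by
      conv_lhs => rw [hUG x]
      group
    rw [e, hψ _ (N.G0.mul_mem hn N.g0_mem) _ (N.Γ.mul_mem N.gam_mem (hGm x)),
      hmul _ hn _ N.g0_mem, hg0, mul_one, hconj _ (hU x)]
  have hψc : Continuous ψ := by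
    rw [continuous_iff_continuousAt]
    intro g
    have hev : ∀ᶠ x in 𝓝 g, x * g⁻¹ ∈ N.G0 := by
      have hc : Continuous fun x : G => x * g⁻¹ := by fun_prop
      have : (fun x : G => x * g⁻¹) ⁻¹' (N.G0 : Set G) ∈ 𝓝 g := by
        apply hc.continuousAt.preimage_mem_nhds
        apply N.isOpen.mem_nhds
        simp [N.G0.one_mem]
      exact this
    have hc1 : ContinuousAt (fun x : G => χ (x * g⁻¹) * ψ g) g := by
      have hχ : ContinuousAt χ (g * g⁻¹) := by
        rw [mul_inv_cancel]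
        exact hcont.continuousAt (N.isOpen.mem_nhds N.G0.one_mem)
      have hc : ContinuousAt (fun x : G => x * g⁻¹) g := by fun_prop
      have h3 : ContinuousAt (fun x : G => χ (x * g⁻¹)) g :=
        ContinuousAt.comp (g := χ) (f := fun x : G => x * g⁻¹) hχ hc
      exact h3.mul continuousAt_const
    refine hc1.congr ?_
    filter_upwards [hev] with x hx
    have := hψl _ hx g
    rw [← this]
    congr 1; group
  -- descend
  let φ : G ⧸ N.Γ → Circle := Quotient.lift ψ (by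
    intro x y hxy
    have h : x⁻¹ * y ∈ N.Γ := QuotientGroup.leftRel_apply.mp hxy
    have := hψr x _ h
    rw [← this]
    congr 1; group)
  have hφ : ∀ x : G, φ (x : G ⧸ N.Γ) = ψ x := fun x => rfl
  have hφc : Continuous φ := by
    apply Continuous.quotient_lift hψc
  have hφa : ∀ y : G ⧸ N.Γ, φ (N.a • y) = φ y := by
    intro y
    induction y using QuotientGroup.induction_on with
    | H x =>
      have : N.a • (x : G ⧸ N.Γ) = ((N.a * x : G) : G ⧸ N.Γ) := rfl
      rw [this, hφ, hφ, hψa]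
  have hφn : ∀ (n : ℕ) (y : G ⧸ N.Γ), φ (N.a ^ n • y) = φ y := by
    intro n
    induction n with
    | zero => intro y; simp
    | succ n ih => intro y; rw [pow_succ, mul_smul, ih, hφa]
  have hφz : ∀ (n : ℤ) (y : G ⧸ N.Γ), φ (N.a ^ n • y) = φ y := by
    intro n y
    obtain ⟨m, rfl | rfl⟩ := n.eq_nat_or_neg
    · rw [zpow_natCast]; exact hφn m y
    · have := hφn m (N.a ^ (-(m : ℤ)) • y)
      rw [← mul_smul] at this
      rw [← this]
      simp
  have hcl : IsClosed {y : G ⧸ N.Γ | φ y = 1} := isClosed_eq hφc continuous_const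
  have hall : ∀ y : G ⧸ N.Γ, φ y = 1 := by
    intro y
    have hsub : Set.range (fun n : ℤ => N.a ^ n • ((1 : G) : G ⧸ N.Γ)) ⊆ {y | φ y = 1} := by
      rintro _ ⟨n, rfl⟩
      show φ _ = 1
      rw [hφz, hφ]
      have := hψ 1 N.G0.one_mem 1 N.Γ.one_mem
      rw [one_mul] at this
      rw [this, h1]
    have := closure_minimal hsub hcl
    rw [(N.dense _).closure_eq] at this
    exact this (Set.mem_univ y)
  intro x hx
  have h := hall (x : G ⧸ N.Γ)
  rw [hφ] at h
  have h2 := hψ x hx 1 N.Γ.one_mem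
  rw [mul_one] at h2
  rw [← h2, h]

end Pool.Agent.W417.PR.EL
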