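import Pool.Agent.W295.PR.Stm

set_option autoImplicit false

open Topology

namespace Pool.Agent.W417.PR.QCH

open Pool.Agent.W295.PR

section
variable {R : Type} [AddCommGroup R] {G : Type} [Group G]

lemma poly_one (RF : ℕ → AddSubgroup R) (GF : ℕ → Subgroup G) :
    ∀ n l, IsPoly RF GF n l (1 : R → G) := by
  intro n
  induction n with
  | zero => intro l x; exact (GF l).one_mem
  | succ n ih =>
    intro l
    refine ⟨ih l, fun j _ h _ => ?_⟩
    have : dd h (1 : R → G) = 1 := by funext x; simp [dd]
    rw [this]; exact ih _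

lemma poly_const (RF : ℕ → AddSubgroup R) (GF : ℕ → Subgroup G) (c : G) :
    ∀ n l, c ∈ GF l → IsPoly RF GF n l (fun _ : R => c) := by
  intro n
  induction n with
  | zero => intro l hc x; exact hc
  | succ n ih =>
    intro l hc
    refine ⟨ih l hc, fun j _ h _ => ?_⟩
    have : dd h (fun _ : R => c) = 1 := by funext x; simp [dd]
    rw [this]; exact poly_one RF GF _ _

end

theorem main (h1 : S_PG) (h2 : S_FILT) (h3 : S_RAISE) (h4 : S_POW) (h5 : S_EV) (h6 : S_RFW) :
    S_QCH := by
  intro G _ _ _ N D
  have hF : Filt (lcsF G (D + 1)) := h2 G (D + 1) (by omega)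
  have htop : ∀ i, i ≤ D + 1 → lcsF G (D + 1) i = ⊤ := by
    intro i hi
    have : (i + (D + 1) - 1) / (D + 1) - 1 = 0 := by
      have h : (i + (D + 1) - 1) / (D + 1) < 2 := by
        rw [Nat.div_lt_iff_lt_mul (by omega)]; omega
      omega
    unfold lcsF lcs
    rw [this]
    simp
  let A : ℕ → (RR D → G) → Prop := fun l f => ∀ n, IsPoly (RFw D) (lcsF G (D + 1)) n l f
  have PG := fun n => h1 (RR D) G (RFw D) (lcsF G (D + 1)) hF n
  have Adec : ∀ l f, A (l + 1) f → A l f := fun l f h n => (PG n).1 l f (h n)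
  have Amul : ∀ l f g, A l f → A l g → A l (f * g) :=
    fun l f g hf hg n => (PG n).2.1 l f g (hf n) (hg n)
  have Ainv : ∀ l f, A l f → A l f⁻¹ := fun l f hf n => (PG n).2.2.1 l f (hf n)
  have Acomm : ∀ l m f g, A l f → A m g → A (l + m) (f * g * f⁻¹ * g⁻¹) :=
    fun l m f g hf hg n => (PG n).2.2.2.1 l m f g (hf n) (hg n)
  have Aone : ∀ l, A l 1 := fun l n => poly_one _ _ n l
  have Aconst : ∀ c : G, A 1 (fun _ => c) := fun c n =>
    poly_const _ _ c n 1 (by rw [htop 1 (by omega)]; exact Subgroup.mem_top _)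
  have Apow : ∀ (b : G) (e : ℤ), A 1 (fun q => b ^ (ev D e q)) := by
    intro b e n
    refine h4 (RR D) G (RFw D) (lcsF G (D + 1)) b (fun q => ev D e q) 1
      (fun x y => (h5 D e 0 x y).2.2.2.1) (by rw [htop 1 (by omega)]; exact Subgroup.mem_top _)
      ?_ n
    intro j hj
    by_cases hjD : j ≤ D
    · right
      rw [htop (1 + j) (by omega)]; exact Subgroup.mem_top _
    · left
      intro h hh
      have h0 : h = 0 := by
        funext l
        exact hh l (by omega)
      subst h0
      simp [ev]
  have hPP : ∀ f ∈ PP N D, A 1 f := by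
    intro f hf
    induction hf using Subgroup.closure_induction with
    | mem f hf =>
      obtain ⟨e, u, x, v, -, -, -, rfl⟩ := hf
      have e1 : gpp N D e u x v = (fun q => (u * N.a) ^ (ev D e q)) * (fun _ => x) *
          (fun q => (v * N.a) ^ (ev D e q))⁻¹ := by
        funext q; rfl
      rw [e1]
      exact Amul _ _ _ (Amul _ _ _ (Apow _ _) (Aconst _)) (Ainv _ _ (Apow _ _))
    | one => exact Aone 1
    | mul f g _ _ hf hg => exact Amul _ _ _ hf hg
    | inv f _ hf => exact Ainv _ _ hf
  have hq : ∀ n, ∀ f ∈ qch N D n, A (n + 1) f := by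
    intro n
    induction n with
    | zero => intro f hf; exact hPP f hf
    | succ n ih =>
      intro f hf
      unfold qch at hf
      induction hf using Subgroup.closure_induction with
      | mem f hf =>
        rcases hf with ⟨g, hg, rfl⟩ | ⟨g, hg, rfl⟩
        · have hA := Acomm 1 (n + 1) (fun _ => N.a⁻¹) g (Aconst _) (ih g hg)
          have e1 : (fun _ : RR D => N.a⁻¹) * g * (fun _ : RR D => N.a⁻¹)⁻¹ * g⁻¹ =
              (fun q => N.a⁻¹ * g q * N.a) * g⁻¹ := by
            funext q; simp
          rw [e1] at hA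
          have e2 : 1 + (n + 1) = n + 1 + 1 := by omega
          rw [e2] at hA
          exact hA
        · have hg1 : A (n + 1) g := ih g hg
          have hR : A (n + 1 + 1) (fun q => g (tau D (-1) q) * (g q)⁻¹) := by
            intro k
            exact h3 (RR D) G (RFw D) (lcsF G (D + 1)) hF (h6 D).1 (h6 D).2.2.1
              (fun q => tau D (-1) q) (fun x y => (h5 D (-1) 0 x y).2.2.2.2.1)
              (fun j hj h hh => (h6 D).2.2.2 (-1) j h hj hh) k (n + 1) g (hg1 (k + 1))
          have hgt : A (n + 1) (fun q => g (tau D (-1) q)) := by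
            have := Amul _ _ _ (Adec _ _ hR) hg1
            have e1 : (fun q => g (tau D (-1) q) * (g q)⁻¹) * g =
                fun q => g (tau D (-1) q) := by funext q; simp
            rw [e1] at this
            exact this
          have hC := Acomm 1 (n + 1) _ _ (Apow N.a (-1)) hgt
          have e2 : 1 + (n + 1) = n + 1 + 1 := by omega
          rw [e2] at hC
          have := Amul _ _ _ hC hR
          have e3 : ((fun q => N.a ^ (ev D (-1) q)) * (fun q => g (tau D (-1) q)) *
              (fun q => N.a ^ (ev D (-1) q))⁻¹ * (fun q => g (tau D (-1) q))⁻¹) *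
              (fun q => g (tau D (-1) q) * (g q)⁻¹) = cj N D (-1) g * g⁻¹ := by
            funext q; simp [cj, mul_assoc]
          rw [e3] at this
          exact this
      | one => exact Aone _
      | mul f g _ _ hf hg => exact Amul _ _ _ hf hg
      | inv f _ hf => exact Ainv _ _ hf
  have hnil := N.nil
  obtain ⟨s, hs⟩ : ∃ s, lcs G s = ⊥ := Subgroup.nilpotent_iff_lowerCentralSeries.mp N.nil
  refine ⟨(s + 1) * (D + 1) - 1, ?_⟩
  rw [eq_bot_iff]
  intro f hf
  have h := hq _ f hf 0
  have e1 : (s + 1) * (D + 1) - 1 + 1 = (s + 1) * (D + 1) := by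
    have : 0 < (s + 1) * (D + 1) := by positivity
    omega
  rw [e1] at h
  have e2 : ((s + 1) * (D + 1) + (D + 1) - 1) / (D + 1) - 1 = s := by
    have : ((s + 1) * (D + 1) + (D + 1) - 1) / (D + 1) = s + 1 := by
      have e3 : (s + 1) * (D + 1) + (D + 1) - 1 = D + (s + 1) * (D + 1) := by omega
      rw [e3, Nat.add_mul_div_right _ _ (by omega)]
      rw [Nat.div_eq_of_lt (by omega)]; omega
    omega
  have hb : lcsF G (D + 1) ((s + 1) * (D + 1)) = ⊥ := by
    unfold lcsF
    rw [e2, hs]
  rw [Subgroup.mem_bot]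
  funext q
  have := h q
  rw [hb, Subgroup.mem_bot] at this
  exact this

end Pool.Agent.W417.PR.QCH
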