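import Pool.Agent.W207.PR.A0

/-! Uniqueness. -/

set_option autoImplicit false

open Filter Topology Set MeasureTheory

namespace Pool.Agent.W417.PR

open W207.PR

theorem integ {h O : ℝ → ℝ} (hc : Continuous h) (h01 : ∀ u, 0 ≤ h u ∧ h u ≤ 1)
    (hdec : ∀ n : ℕ, ∃ K : ℝ, ∀ u, h u * (1 + |u|) ^ n ≤ K) (hO : Measurable O) {C : ℝ}
    (hC : 0 ≤ C) (hb : ∀ᵐ u ∂(volume.restrict (Ioi 0)), |O u| ≤ C * (1 + u)) (k : ℕ) :
    Integrable (fun u => u ^ k * h u * O u) (volume.restrict (Ioi 0)) := by
  obtain ⟨K, hK⟩ := hdec (k + 3)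
  have hmeas : AEStronglyMeasurable (fun u => u ^ k * h u * O u) (volume.restrict (Ioi 0)) :=
    (((measurable_id.pow_const k).mul hc.measurable).mul hO).aestronglyMeasurable
  refine Integrable.mono' (g := fun u => C * K * (1 + u ^ 2)⁻¹)
    (integrable_inv_one_add_sq.integrableOn.const_mul (C * K)) hmeas ?_
  filter_upwards [hb, ae_restrict_mem measurableSet_Ioi] with u hu hu0
  have hu0' : 0 < u := hu0
  have h1 := (h01 u).1
  have h2 := hK u
  rw [abs_of_pos hu0'] at h2
  rw [Real.norm_eq_abs, abs_mul, abs_of_nonneg (mul_nonneg (pow_nonneg hu0'.le _) h1)]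
  have h3 : u ^ k * h u * |O u| ≤ (1 + u) ^ k * h u * (C * (1 + u)) := by
    apply mul_le_mul
    · exact mul_le_mul_of_nonneg_right (pow_le_pow_left₀ hu0'.le (by linarith) k) h1
    · exact hu
    · exact abs_nonneg _
    · positivity
  refine h3.trans ?_
  have h4 : (0 : ℝ) < 1 + u ^ 2 := by positivity
  rw [← div_eq_mul_inv, le_div_iff₀ h4]
  have h5 : (1 + u) ^ k * h u * (C * (1 + u)) * (1 + u ^ 2) ≤
      (1 + u) ^ k * h u * (C * (1 + u)) * (1 + u) ^ 2 := by
    apply mul_le_mul_of_nonneg_left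
    · nlinarith
    · positivity
  refine h5.trans ?_
  have h6 : (1 + u) ^ k * h u * (C * (1 + u)) * (1 + u) ^ 2 = C * (h u * (1 + u) ^ (k + 3)) := by
    ring
  rw [h6]
  exact mul_le_mul_of_nonneg_left h2 hC

/-- partial sums of cosh -/
noncomputable def pK (c : ℝ) (K : ℕ) (u : ℝ) : ℝ :=
  ∑ k ∈ Finset.range K, (c / 2 * u) ^ (2 * k) / ((2 * k).factorial : ℝ)

theorem pK_nonneg (c : ℝ) (K : ℕ) (u : ℝ) : 0 ≤ pK c K u := by
  refine Finset.sum_nonneg fun k _ => div_nonneg ?_ (by positivity)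
  rw [pow_mul]
  positivity

theorem pK_tendsto (c u : ℝ) :
    Tendsto (fun K => pK c K u) atTop (𝓝 (Real.cosh (c / 2 * u))) :=
  (Real.hasSum_cosh (c / 2 * u)).tendsto_sum_nat

theorem pK_le (c : ℝ) (K : ℕ) (u : ℝ) : pK c K u ≤ Real.cosh (c / 2 * u) := by
  refine sum_le_hasSum _ (fun k _ => div_nonneg ?_ (by positivity))
    (Real.hasSum_cosh (c / 2 * u))
  rw [pow_mul]
  positivity

theorem cosh_le_exp {x : ℝ} (hx : 0 ≤ x) : Real.cosh x ≤ Real.exp x := by
  rw [Real.cosh_eq]
  have : Real.exp (-x) ≤ Real.exp x := Real.exp_le_exp.2 (by linarith)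
  linarith

theorem exp_le_cosh (x : ℝ) : Real.exp x ≤ 2 * Real.cosh x := by
  rw [Real.cosh_eq]
  have := Real.exp_pos (-x)
  linarith

theorem main_step (hdet : S_DET) {h O : ℝ → ℝ} (hc : Continuous h)
    (h01 : ∀ u, 0 ≤ h u ∧ h u ≤ 1)
    (hdec : ∀ n : ℕ, ∃ K : ℝ, ∀ u, h u * (1 + |u|) ^ n ≤ K) (hO : Measurable O) {C c : ℝ}
    (hC : 0 ≤ C) (hc0 : 0 < c)
    (hb : ∀ᵐ u ∂(volume.restrict (Ioi 0)), |O u| ≤ C * (1 + u))
    (hl : ∀ᵐ u ∂(volume.restrict (Ioi 0)), -(C * Real.exp (-(c * u))) ≤ O u)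
    (h0 : ∀ k : ℕ, ∫ u in Ioi (0 : ℝ), u ^ (2 * k + 1) * h u * O u = 0) :
    ∀ᵐ u ∂(volume.restrict (Ioi 0)), u * h u * O u = 0 := by
  set μ := (volume : Measure ℝ).restrict (Ioi 0) with hμ
  have hint := fun k => integ hc h01 hdec hO hC hb k
  -- the partial sums
  let W : ℕ → ℝ → ℝ := fun K u => pK c K u * (u * h u * O u)
  have hWeq : ∀ K, W K = fun u => ∑ k ∈ Finset.range K,
      ((c / 2) ^ (2 * k) / ((2 * k).factorial : ℝ)) * (u ^ (2 * k + 1) * h u * O u) := by
    intro K
    funext u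
    change pK c K u * (u * h u * O u) = _
    rw [pK, Finset.sum_mul]
    refine Finset.sum_congr rfl fun k _ => ?_
    rw [mul_pow]
    ring
  have hWint : ∀ K, Integrable (W K) μ := by
    intro K
    rw [hWeq]
    exact integrable_finsetSum _ fun k _ => (hint (2 * k + 1)).const_mul _
  have hW0 : ∀ K, ∫ u, W K u ∂μ = 0 := by
    intro K
    rw [hWeq, integral_finsetSum _ fun k _ => (hint (2 * k + 1)).const_mul _]
    refine Finset.sum_eq_zero fun k _ => ?_
    rw [integral_const_mul, h0 k, mul_zero]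
  let E : ℝ → ℝ := fun u => 8 * C / c * Real.exp (-(c / 4) * u)
  have hE : Integrable E μ := (exp_neg_integrableOn_Ioi 0 (by positivity)).const_mul _
  have hWle : ∀ K, ∀ᵐ u ∂μ, ‖W K u‖ ≤ W K u + E u := by
    intro K
    filter_upwards [hl, ae_restrict_mem measurableSet_Ioi] with u hu hu0
    have hu0' : 0 < u := hu0
    have h1 := (h01 u).1
    have h2 := (h01 u).2
    have hp0 := pK_nonneg c K u
    have hp1 : pK c K u ≤ Real.exp (c / 2 * u) :=
      (pK_le c K u).trans (cosh_le_exp (by positivity))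
    have hu1 : u ≤ 4 / c * Real.exp (c / 4 * u) := by
      have := Real.add_one_le_exp (c / 4 * u)
      have h3 : u = 4 / c * (c / 4 * u) := by field_simp
      have h4 : 4 / c * (c / 4 * u) ≤ 4 / c * Real.exp (c / 4 * u) :=
        mul_le_mul_of_nonneg_left (by linarith) (by positivity)
      linarith
    have hx : pK c K u * (u * h u * (C * Real.exp (-(c * u)))) ≤ E u / 2 := by
      have h5 : u * h u ≤ 4 / c * Real.exp (c / 4 * u) * 1 :=
        mul_le_mul hu1 h2 h1 (by positivity)
      have h6 : pK c K u * (u * h u * (C * Real.exp (-(c * u)))) ≤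
          Real.exp (c / 2 * u) * (4 / c * Real.exp (c / 4 * u) * 1 *
            (C * Real.exp (-(c * u)))) := by
        apply mul_le_mul hp1 _ (by positivity) (Real.exp_pos _).le
        exact mul_le_mul_of_nonneg_right h5 (by positivity)
      refine h6.trans_eq ?_
      change _ = 8 * C / c * Real.exp (-(c / 4) * u) / 2
      have h7 : Real.exp (-(c / 4) * u) = Real.exp (c / 2 * u) * Real.exp (c / 4 * u) *
          Real.exp (-(c * u)) := by
        rw [← Real.exp_add, ← Real.exp_add]
        congr 1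
        ring
      rw [h7]
      ring
    have hy : -(E u / 2) ≤ W K u := by
      have h8 : -(pK c K u * (u * h u * (C * Real.exp (-(c * u))))) ≤ W K u := by
        change _ ≤ pK c K u * (u * h u * O u)
        rw [← mul_neg, ← mul_neg]
        apply mul_le_mul_of_nonneg_left _ hp0
        exact mul_le_mul_of_nonneg_left hu (by positivity)
      linarith
    have hE0 : 0 ≤ E u := by
      change 0 ≤ 8 * C / c * Real.exp (-(c / 4) * u)
      positivity
    rw [Real.norm_eq_abs, abs_le]
    constructor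
    · linarith
    · linarith
  have hWn : ∀ K, ∫ u, ‖W K u‖ ∂μ ≤ ∫ u, E u ∂μ := by
    intro K
    have h9 := integral_mono_ae (hWint K).norm ((hWint K).add hE) (hWle K)
    have h10 : ∫ u, (W K + E) u ∂μ = ∫ u, W K u ∂μ + ∫ u, E u ∂μ :=
      integral_add (hWint K) hE
    rw [h10, hW0, zero_add] at h9
    exact h9
  let F : ℝ → ℝ := fun u => Real.cosh (c / 2 * u) * (u * h u * O u)
  have hFm : Measurable F := by
    refine Measurable.mul ?_ ((measurable_id.mul hc.measurable).mul hO)
    exact (Real.continuous_cosh.comp (continuous_const.mul continuous_id)).measurable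
  have hFfin : Integrable F μ := by
    refine ⟨hFm.aestronglyMeasurable, ?_⟩
    rw [hasFiniteIntegral_iff_enorm]
    have h11 := lintegral_enorm_le_liminf_of_tendsto (μ := μ) (G := W) (f := F)
      (Eventually.of_forall fun u => (pK_tendsto c u).mul_const _)
      (fun K => (hWint K).aestronglyMeasurable.enorm)
    refine lt_of_le_of_lt h11 ?_
    have h12 : liminf (fun K => ∫⁻ u, ‖W K u‖ₑ ∂μ) atTop ≤ ENNReal.ofReal (∫ u, E u ∂μ) := by
      refine liminf_le_of_le (by isBoundedDefault) ?_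
      intro b hb'
      obtain ⟨K, hK⟩ := hb'.exists
      refine hK.trans ?_
      rw [← ofReal_integral_norm_eq_lintegral_enorm (hWint K)]
      exact ENNReal.ofReal_le_ofReal (hWn K)
    exact lt_of_le_of_lt h12 ENNReal.ofReal_lt_top
  refine hdet (fun u => u * h u * O u) (c / 2) (by positivity) ?_ ?_
  · refine Integrable.mono' (g := fun u => 2 * ‖F u‖) (hFfin.norm.const_mul 2) ?_ ?_
    · refine Measurable.aestronglyMeasurable ?_
      refine Measurable.mul ?_ ((measurable_id.mul hc.measurable).mul hO)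
      exact (Real.continuous_exp.comp (continuous_const.mul continuous_id)).measurable
    · refine Eventually.of_forall fun u => ?_
      change ‖Real.exp (c / 2 * u) * (u * h u * O u)‖ ≤
        2 * ‖Real.cosh (c / 2 * u) * (u * h u * O u)‖
      rw [norm_mul, norm_mul (Real.cosh (c / 2 * u)), ← mul_assoc]
      refine mul_le_mul_of_nonneg_right ?_ (norm_nonneg (u * h u * O u))
      rw [Real.norm_of_nonneg (Real.exp_pos _).le, Real.norm_of_nonneg (Real.cosh_pos _).le]
      exact exp_le_cosh _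
  · intro k
    refine Eq.trans (integral_congr_ae (Eventually.of_forall fun u => ?_)) (h0 k)
    change u ^ (2 * k) * (u * h u * O u) = u ^ (2 * k + 1) * h u * O u
    ring

theorem uniq : S_UNIQ := by
  intro htest hdet O hO C c hc0 hb hl hz
  have hC : 0 ≤ C := by
    have hne : (volume : Measure ℝ).restrict (Ioi 0) ≠ 0 := by
      rw [ne_eq, Measure.restrict_eq_zero, Real.volume_Ioi]
      exact ENNReal.top_ne_zero
    have : NeBot (ae ((volume : Measure ℝ).restrict (Ioi 0))) := ae_neBot.2 hne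
    obtain ⟨u, hu, hu0⟩ := (hb.and (ae_restrict_mem measurableSet_Ioi)).exists
    have hu0' : 0 < u := hu0
    have h1 := (abs_nonneg _).trans hu
    by_contra hneg
    push Not at hneg
    nlinarith
  have key : ∀ m : ℕ, ∀ᵐ u : ℝ ∂(volume.restrict (Ioi (0 : ℝ))), u ≤ (m : ℝ) → O u = 0 := by
    intro m
    obtain ⟨h, hcont, h01, hU, hdec, hpsi⟩ := htest (m + 1) (by positivity)
    have h0 : ∀ k : ℕ, ∫ u in Ioi (0 : ℝ), u ^ (2 * k + 1) * h u * O u = 0 := by
      intro k
      obtain ⟨ψ, hψ, hψd⟩ := hpsi k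
      have := hz ψ hψ
      have h2 : ∫ u in Ioi (0 : ℝ), u ^ (2 * k + 1) * h u * O u =
          -∫ u in Ioi (0 : ℝ), dt ψ u * O u := by
        rw [← integral_neg]
        refine integral_congr_ae (Eventually.of_forall fun u => ?_)
        change u ^ (2 * k + 1) * h u * O u = -(dt ψ u * O u)
        rw [hψd]
        ring
      rw [h2, this, neg_zero]
    filter_upwards [main_step hdet hcont h01 hdec hO hC hc0 hb hl h0,
      ae_restrict_mem measurableSet_Ioi] with u hu hu0 hum
    have hu0' : 0 < u := hu0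
    have h3 := hU u (by
      rw [abs_of_pos hu0']
      linarith)
    have h4 : u * h u ≠ 0 := (mul_pos hu0' (by linarith)).ne'
    exact (mul_eq_zero.1 hu).resolve_left h4
  filter_upwards [ae_all_iff.2 key] with u hu
  obtain ⟨m, hm⟩ := exists_nat_ge u
  exact hu m hm

end Pool.Agent.W417.PR
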