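import Pool.Agent.W207.PR.A1
import Pool.Agent.W417.PR.Uniq

/-! Uniqueness, even functions. -/

set_option autoImplicit false

open Filter Topology Set MeasureTheory

namespace Pool.Agent.W417.PR

open W207.PR

theorem main_stepE (hdet : S_DET) {h O : ℝ → ℝ} (hc : Continuous h)
    (h01 : ∀ u, 0 ≤ h u ∧ h u ≤ 1)
    (hdec : ∀ n : ℕ, ∃ K : ℝ, ∀ u, h u * (1 + |u|) ^ n ≤ K) (hO : Measurable O) {C c : ℝ}
    (hC : 0 ≤ C) (hc0 : 0 < c)
    (hb : ∀ᵐ u ∂(volume.restrict (Ioi 0)), |O u| ≤ C * (1 + u))
    (hl : ∀ᵐ u ∂(volume.restrict (Ioi 0)), -(C * Real.exp (-(c * u))) ≤ O u)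
    (h0 : ∀ k : ℕ, ∫ u in Ioi (0 : ℝ), u ^ (2 * k) * h u * O u = 0) :
    ∀ᵐ u ∂(volume.restrict (Ioi 0)), h u * O u = 0 := by
  set μ := (volume : Measure ℝ).restrict (Ioi 0) with hμ
  have hint := fun k => integ hc h01 hdec hO hC hb k
  -- the partial sums
  let W : ℕ → ℝ → ℝ := fun K u => pK c K u * (h u * O u)
  have hWeq : ∀ K, W K = fun u => ∑ k ∈ Finset.range K,
      ((c / 2) ^ (2 * k) / ((2 * k).factorial : ℝ)) * (u ^ (2 * k) * h u * O u) := by
    intro K
    funext u
    change pK c K u * (h u * O u) = _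
    rw [pK, Finset.sum_mul]
    refine Finset.sum_congr rfl fun k _ => ?_
    rw [mul_pow]
    ring
  have hWint : ∀ K, Integrable (W K) μ := by
    intro K
    rw [hWeq]
    exact integrable_finsetSum _ fun k _ => (hint (2 * k)).const_mul _
  have hW0 : ∀ K, ∫ u, W K u ∂μ = 0 := by
    intro K
    rw [hWeq, integral_finsetSum _ fun k _ => (hint (2 * k)).const_mul _]
    refine Finset.sum_eq_zero fun k _ => ?_
    rw [integral_const_mul, h0 k, mul_zero]
  let E : ℝ → ℝ := fun u => 2 * C * Real.exp (-(c / 2) * u)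
  have hE : Integrable E μ := (exp_neg_integrableOn_Ioi 0 (by positivity)).const_mul _
  have hWle : ∀ K, ∀ᵐ u ∂μ, ‖W K u‖ ≤ W K u + E u := by
    intro K
    filter_upwards [hl, ae_restrict_mem measurableSet_Ioi] with u hu hu0
    have hu0' : 0 < u := hu0
    have h1 := (h01 u).1
    have h2 := (h01 u).2
    have hp0 := pK_nonneg c K u
    have hp1 : pK c K u ≤ Real.exp (c / 2 * u) :=
      (pK_le c K u).trans (cosh_le_exp (by positivity))
    have hx : pK c K u * (h u * (C * Real.exp (-(c * u)))) ≤ E u / 2 := by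
      have h5 : pK c K u * (h u * (C * Real.exp (-(c * u)))) ≤
          Real.exp (c / 2 * u) * (1 * (C * Real.exp (-(c * u)))) := by
        apply mul_le_mul hp1 _ (by positivity) (Real.exp_pos _).le
        exact mul_le_mul_of_nonneg_right h2 (by positivity)
      have h6 : Real.exp (c / 2 * u) * (1 * (C * Real.exp (-(c * u)))) =
          C * Real.exp (-(c / 2) * u) := by
        have h7 : Real.exp (-(c / 2) * u) = Real.exp (c / 2 * u) * Real.exp (-(c * u)) := by
          rw [← Real.exp_add]
          congr 1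
          ring
        rw [h7]
        ring
      change _ ≤ 2 * C * Real.exp (-(c / 2) * u) / 2
      rw [h6] at h5
      linarith
    have hy : -(E u / 2) ≤ W K u := by
      have h8 : -(pK c K u * (h u * (C * Real.exp (-(c * u))))) ≤ W K u := by
        change _ ≤ pK c K u * (h u * O u)
        rw [← mul_neg, ← mul_neg]
        apply mul_le_mul_of_nonneg_left _ hp0
        exact mul_le_mul_of_nonneg_left hu (by positivity)
      linarith
    have hE0 : 0 ≤ E u := by
      change 0 ≤ 2 * C * Real.exp (-(c / 2) * u)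
      positivity
    rw [Real.norm_eq_abs, abs_le]
    constructor
    · linarith
    · linarith
  have hWn : ∀ K, ∫ u, ‖W K u‖ ∂μ ≤ ∫ u, E u ∂μ := by
    intro K
    have h9 := integral_mono_ae (hWint K).norm ((hWint K).add hE) (hWle K)
    have h10 : ∫ u, (W K + E) u ∂μ = ∫ u, W K u ∂μ + ∫ u, E u ∂μ :=
      integral_add (hWint K) hE
    rw [h10, hW0, zero_add] at h9
    exact h9
  let F : ℝ → ℝ := fun u => Real.cosh (c / 2 * u) * (h u * O u)
  have hFm : Measurable F := by
    refine Measurable.mul ?_ (hc.measurable.mul hO)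
    exact (Real.continuous_cosh.comp (continuous_const.mul continuous_id)).measurable
  have hFfin : Integrable F μ := by
    refine ⟨hFm.aestronglyMeasurable, ?_⟩
    rw [hasFiniteIntegral_iff_enorm]
    have h11 := lintegral_enorm_le_liminf_of_tendsto (μ := μ) (G := W) (f := F)
      (Eventually.of_forall fun u => (pK_tendsto c u).mul_const _)
      (fun K => (hWint K).aestronglyMeasurable.enorm)
    refine lt_of_le_of_lt h11 ?_
    have h12 : liminf (fun K => ∫⁻ u, ‖W K u‖ₑ ∂μ) atTop ≤ ENNReal.ofReal (∫ u, E u ∂μ) := by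
      refine liminf_le_of_le (by isBoundedDefault) ?_
      intro b hb'
      obtain ⟨K, hK⟩ := hb'.exists
      refine hK.trans ?_
      rw [← ofReal_integral_norm_eq_lintegral_enorm (hWint K)]
      exact ENNReal.ofReal_le_ofReal (hWn K)
    exact lt_of_le_of_lt h12 ENNReal.ofReal_lt_top
  refine hdet (fun u => h u * O u) (c / 2) (by positivity) ?_ ?_
  · refine Integrable.mono' (g := fun u => 2 * ‖F u‖) (hFfin.norm.const_mul 2) ?_ ?_
    · refine Measurable.aestronglyMeasurable ?_
      refine Measurable.mul ?_ (hc.measurable.mul hO)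
      exact (Real.continuous_exp.comp (continuous_const.mul continuous_id)).measurable
    · refine Eventually.of_forall fun u => ?_
      change ‖Real.exp (c / 2 * u) * (h u * O u)‖ ≤
        2 * ‖Real.cosh (c / 2 * u) * (h u * O u)‖
      rw [norm_mul, norm_mul (Real.cosh (c / 2 * u)), ← mul_assoc]
      refine mul_le_mul_of_nonneg_right ?_ (norm_nonneg (h u * O u))
      rw [Real.norm_of_nonneg (Real.exp_pos _).le, Real.norm_of_nonneg (Real.cosh_pos _).le]
      exact exp_le_cosh _
  · intro k
    refine Eq.trans (integral_congr_ae (Eventually.of_forall fun u => ?_)) (h0 k)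
    change u ^ (2 * k) * (h u * O u) = u ^ (2 * k) * h u * O u
    ring

theorem uniqe : S_UNIQE := by
  intro htest hdet O hO C c hc0 hb hl hz
  have hC : 0 ≤ C := by
    have hne : (volume : Measure ℝ).restrict (Ioi 0) ≠ 0 := by
      rw [ne_eq, Measure.restrict_eq_zero, Real.volume_Ioi]
      exact ENNReal.top_ne_zero
    have : NeBot (ae ((volume : Measure ℝ).restrict (Ioi 0))) := ae_neBot.2 hne
    obtain ⟨u, hu, hu0⟩ := (hb.and (ae_restrict_mem measurableSet_Ioi)).exists
    have hu0' : 0 < u := hu0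
    have h1 := (abs_nonneg _).trans hu
    by_contra hneg
    push Not at hneg
    nlinarith
  have key : ∀ m : ℕ, ∀ᵐ u : ℝ ∂(volume.restrict (Ioi (0 : ℝ))), u ≤ (m : ℝ) → O u = 0 := by
    intro m
    obtain ⟨h, hcont, h01, hU, hdec, hpsi⟩ := htest (m + 1) (by positivity)
    have h0 : ∀ k : ℕ, ∫ u in Ioi (0 : ℝ), u ^ (2 * k) * h u * O u = 0 := by
      intro k
      obtain ⟨ψ, hψ, hψd⟩ := hpsi k
      have := hz ψ hψ
      have h2 : ∫ u in Ioi (0 : ℝ), u ^ (2 * k) * h u * O u =
          ∫ u in Ioi (0 : ℝ), ct ψ u * O u := by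
        refine integral_congr_ae (Eventually.of_forall fun u => ?_)
        change u ^ (2 * k) * h u * O u = ct ψ u * O u
        rw [hψd]
      rw [h2, this]
    filter_upwards [main_stepE hdet hcont h01 hdec hO hC hc0 hb hl h0,
      ae_restrict_mem measurableSet_Ioi] with u hu hu0 hum
    have hu0' : 0 < u := hu0
    have h3 := hU u (by
      rw [abs_of_pos hu0']
      linarith)
    have h4 : h u ≠ 0 := by
      have : (0 : ℝ) < h u := by linarith
      exact this.ne'
    exact (mul_eq_zero.1 hu).resolve_left h4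
  filter_upwards [ae_all_iff.2 key] with u hu
  obtain ⟨m, hm⟩ := exists_nat_ge u
  exact hu m hm

end Pool.Agent.W417.PR
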